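import Pool.Agent.Run7.h686.Fin

set_option autoImplicit false

/-!
# Linear arboricity of Cayley graphs of elementary abelian groups

`H931R3.LA.la G` is the linear arboricity (the same expression as in the frozen statement S07085).
-/

namespace Pool.Agent.Results.MP_0a041d_co.ElementaryAbelian

open SimpleGraph H931R3.LA Pool.Agent.W111.LAR Pool.Agent.TH486.LAC Run7.h686

/-- The linear arboricity conjecture for all Cayley graphs of elementary abelian groups of odd
order.  Let `p` be an odd prime and `V` a finite abelian group with `p • v = 0` for all `v`.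
(1) Every Cayley graph `X` of `V` with nonempty connection set `S` has linear arboricity
`|S| / 2 + 1`.
(2) The same bound holds for every finite graph `G` with a locally injective homomorphism to `X`,
with equality when `G` is regular of degree `|S|` (so for all finite covers of `X`).
(3) A Cayley graph of any finite group `Γ` whose connection set `S` is mapped injectively to
`V ∖ {0}` by a homomorphism `Γ → V` has linear arboricity `|S| / 2 + 1`. -/
theorem result (p : ℕ) (hp : p.Prime) (hp2 : p ≠ 2) (V : Type) [AddCommGroup V] [Finite V]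
    (hV : ∀ v : V, p • v = 0) :
    (∀ (S : Finset V) (X : SimpleGraph V), (∀ a b, X.Adj a b ↔ b - a ∈ S) → S.Nonempty →
      la X = (S.card + 2) / 2 ∧
      ∀ (W : Type) [Finite W] [Nonempty W] (G : SimpleGraph W) (f : W → V),
        (∀ a b, G.Adj a b → X.Adj (f a) (f b)) →
        (∀ a b c, G.Adj a b → G.Adj a c → f b = f c → b = c) →
        la G ≤ (S.card + 2) / 2 ∧
          ((∀ a, (G.neighborSet a).ncard = S.card) → la G = (S.card + 2) / 2)) ∧
    (∀ (Γ : Type) [Group Γ] [Finite Γ] (φ : Γ →* Multiplicative V) (S : Finset Γ)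
      (Y : SimpleGraph Γ), (∀ g h, Y.Adj g h ↔ g⁻¹ * h ∈ S) → S.Nonempty → Set.InjOn φ S →
      (∀ s ∈ S, φ s ≠ 1) → la Y = (S.card + 2) / 2) := by
  classical
  have hmain : ∀ (S : Finset V) (X : SimpleGraph V), (∀ a b, X.Adj a b ↔ b - a ∈ S) →
      S.Nonempty → ∀ (W : Type) [Finite W] [Nonempty W] (G : SimpleGraph W) (f : W → V),
        (∀ a b, G.Adj a b → X.Adj (f a) (f b)) →
        (∀ a b c, G.Adj a b → G.Adj a c → f b = f c → b = c) →
        la G ≤ (S.card + 2) / 2 ∧
          ((∀ a, (G.neighborSet a).ncard = S.card) → la G = (S.card + 2) / 2) := by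
    intro S X hX hS W _ _ G f hom inj
    have h1 := (ld_elem hp hp2 hV S X hX).lift G f hom inj
    have h2 : (S.card + 2) / 2 = S.card / 2 + 1 := by omega
    rw [← h2] at h1
    exact ⟨la_le h1, fun hreg => la_eq_of_cov hS.card_pos hreg h1⟩
  refine ⟨?_, ?_⟩
  · intro S X hX hS
    have hdeg : ∀ a, (X.neighborSet a).ncard = S.card := by
      intro a
      have : X.neighborSet a = (fun x => a + x) '' (S : Set V) := by
        ext b
        constructor
        · intro hb
          exact ⟨b - a, (hX a b).1 hb, by simp⟩
        · rintro ⟨x, hx, rfl⟩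
          show X.Adj a (a + x)
          rw [hX]
          simpa using hx
      rw [this, Set.ncard_image_of_injective _ (add_right_injective a), Set.ncard_coe_finset]
    exact ⟨(hmain S X hX hS V X id (fun a b h => h) (fun a b c _ _ h => h)).2 hdeg,
      hmain S X hX hS⟩
  · intro Γ _ _ φ S Y hY hS hinj hne
    have hinv : ∀ s ∈ S, s⁻¹ ∈ S := by
      intro s hs
      have h1 : Y.Adj 1 s := (hY 1 s).2 (by simpa using hs)
      have h2 := (hY s 1).1 h1.symm
      simpa using h2
    let ψ : Γ → V := fun g => Multiplicative.toAdd (φ g)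
    have hψ : ∀ g h, ψ (g * h) = ψ g + ψ h := fun g h => by
      show Multiplicative.toAdd (φ (g * h)) = _
      rw [map_mul]; rfl
    have hψi : ∀ g, ψ g⁻¹ = -ψ g := fun g => by
      show Multiplicative.toAdd (φ g⁻¹) = _
      rw [map_inv]; rfl
    have hψinj : Set.InjOn ψ S := fun a ha b hb hab => hinj ha hb hab
    let S' : Finset V := S.image ψ
    have hS'c : S'.card = S.card := Finset.card_image_of_injOn hψinj
    let X : SimpleGraph V :=
      { Adj := fun a b => b - a ∈ S'
        symm := by
          constructor
          intro a b h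
          obtain ⟨s, hs, hs'⟩ := Finset.mem_image.1 h
          refine Finset.mem_image.2 ⟨s⁻¹, hinv s hs, ?_⟩
          rw [hψi, hs', neg_sub]
        loopless := ⟨fun a h => by
          obtain ⟨s, hs, hs'⟩ := Finset.mem_image.1 h
          rw [sub_self] at hs'
          exact hne s hs hs'⟩ }
    have h1 := (hmain S' X (fun a b => Iff.rfl) (hS.image _) Γ Y ψ (by
      intro g h hgh
      have h2 := (hY g h).1 hgh
      refine Finset.mem_image.2 ⟨g⁻¹ * h, h2, ?_⟩
      rw [hψ, hψi]; abel) (by
      intro g h k hgh hgk hhk
      have h2 := (hY g h).1 hgh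
      have h3 := (hY g k).1 hgk
      have h4 : ψ (g⁻¹ * h) = ψ (g⁻¹ * k) := by rw [hψ, hψ, hhk]
      exact mul_left_cancel (hψinj h2 h3 h4))).2 (by
      intro g
      rw [hS'c]
      exact cay_deg S Y hY g)
    rw [hS'c] at h1
    exact h1

end Pool.Agent.Results.MP_0a041d_co.ElementaryAbelian
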