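import Pool.Agent.Run7.h778.LS.LiftC

set_option autoImplicit false

/-!
# The linear arboricity conjecture for locally sparse graphs and for almost all lifts

`H931R3.LA.la G` is the linear arboricity (the same expression as in the frozen statement S07085).
-/

namespace Pool.Agent.Results.MP_0a041d_co.LocallySparse

open H931R3.LA

/-- Every set of at most `m` vertices of `G` spans at most as many edges as it has vertices. -/
def Sparse {V : Type} (G : SimpleGraph V) (m : ℕ) : Prop :=
  ∀ U : Finset V, U.card ≤ m → {e | e ∈ G.edgeSet ∧ ∀ v ∈ e, v ∈ U}.ncard ≤ U.card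

/-- `G` is an `n`-lift (an `n`-fold covering graph) of `H`: its vertices are the pairs `(v, i)` with
`v` a vertex of `H` and `i < n`, adjacent vertices lie over adjacent vertices of `H`, and for every
edge `v w` of `H` every vertex over `v` has exactly one neighbour over `w`. -/
def IsLift {V : Type} (H : SimpleGraph V) (n : ℕ) (G : SimpleGraph (V × Fin n)) : Prop :=
  (∀ x y, G.Adj x y → H.Adj x.1 y.1) ∧
    ∀ (x : V × Fin n) (w : V), H.Adj x.1 w → ∃! b : Fin n, G.Adj x (w, b)

/-- **The linear arboricity conjecture for locally sparse graphs and almost all lifts.**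

(1) Let `r ≥ 1`, and let `G` be a finite `r`-regular graph such that every set of at most `m`
vertices spans at most as many edges as vertices, where `m = 32 r + 90` if `r` is even and
`m = (r + 1) ^ (8 r + 31)` if `r` is odd.  Then `la G = ⌈(r + 1) / 2⌉`.
(2) A finite graph of maximum degree at most `2 k` such that every set of at most `64 k + 90`
vertices spans at most as many edges as vertices has linear arboricity at most `k + 1`.
(3) Let `H` be a finite `r`-regular graph, `r ≥ 1`.  It has `(n!) ^ |E(H)|` `n`-lifts, all of them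
`r`-regular, and the proportion of those with `la G ≠ ⌈(r + 1) / 2⌉` is at most `C / n`, with a
constant `C` which depends on `H` only.
(4) Let `H` be a finite graph of maximum degree at most `2 k`.  The proportion of its `n`-lifts of
linear arboricity more than `k + 1` is at most `C / n`. -/
theorem result :
    (∀ (V : Type) [Finite V] [Nonempty V] (G : SimpleGraph V) (r : ℕ), 0 < r →
      (∀ v, (G.neighborSet v).ncard = r) →
      Sparse G (if Even r then 32 * r + 90 else (r + 1) ^ (8 * r + 31)) →
      la G = (r + 2) / 2) ∧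
    (∀ (V : Type) [Finite V] (G : SimpleGraph V) (k : ℕ),
      (∀ v, (G.neighborSet v).ncard ≤ 2 * k) → Sparse G (64 * k + 90) → la G ≤ k + 1) ∧
    (∀ (V : Type) [Finite V] [Nonempty V] (H : SimpleGraph V) (r : ℕ), 0 < r →
      (∀ v, (H.neighborSet v).ncard = r) →
      (∀ n : ℕ, {G : SimpleGraph (V × Fin n) | IsLift H n G}.ncard =
        n.factorial ^ H.edgeSet.ncard) ∧
      (∀ (n : ℕ) (G : SimpleGraph (V × Fin n)), IsLift H n G →
        ∀ x, (G.neighborSet x).ncard = r) ∧
      ∃ C : ℝ, ∀ n : ℕ, 1 ≤ n →
        ({G : SimpleGraph (V × Fin n) | IsLift H n G ∧ la G ≠ (r + 2) / 2}.ncard : ℝ) ≤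
          C / n * {G : SimpleGraph (V × Fin n) | IsLift H n G}.ncard) ∧
    (∀ (V : Type) [Finite V] [Nonempty V] (H : SimpleGraph V) (k : ℕ),
      (∀ v, (H.neighborSet v).ncard ≤ 2 * k) → ∃ C : ℝ, ∀ n : ℕ, 1 ≤ n →
        ({G : SimpleGraph (V × Fin n) | IsLift H n G ∧ k + 1 < la G}.ncard : ℝ) ≤
          C / n * {G : SimpleGraph (V × Fin n) | IsLift H n G}.ncard) := by
  refine ⟨?_, ?_, ?_, ?_⟩
  · intro V _ _ G r hr hreg hS
    exact Pool.Agent.Run7.H778.LS.la_of_sparse G r hr hreg hS
  · intro V _ G k hdeg hS
    exact la_le (Pool.Agent.Run7.H778.LS.cov_even G k hdeg hS)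
  · intro V _ _ H r hr hreg
    have hdeg : ∀ (n : ℕ) (G : SimpleGraph (V × Fin n)), IsLift H n G →
        ∀ x, (G.neighborSet x).ncard = r := by
      intro n G hG x
      rw [Pool.Agent.Run7.H778.LS.lift_deg (H := H) hG x, hreg]
    refine ⟨(Pool.Agent.Run7.H778.LS.sparse_lift H).1, hdeg, ?_⟩
    refine Pool.Agent.Run7.H778.LS.transfer H
      (if Even r then 32 * r + 90 else (r + 1) ^ (8 * r + 31))
      (fun n G => la G = (r + 2) / 2) ?_
    intro n G hn hG hS
    have : Nonempty (Fin n) := ⟨⟨0, hn⟩⟩
    exact Pool.Agent.Run7.H778.LS.la_of_sparse G r hr (hdeg n G hG) hS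
  · intro V _ _ H k hdeg
    obtain ⟨C, hC⟩ := Pool.Agent.Run7.H778.LS.transfer H (64 * k + 90)
      (fun n G => la G ≤ k + 1) (fun n G hn hG hS =>
        la_le (Pool.Agent.Run7.H778.LS.cov_even G k (fun x => by
          rw [Pool.Agent.Run7.H778.LS.lift_deg (H := H) hG x]
          exact hdeg _) hS))
    refine ⟨C, fun n hn => ?_⟩
    have h1 := hC n hn
    simp only [not_le] at h1
    exact h1

end Pool.Agent.Results.MP_0a041d_co.LocallySparse
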